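import Pool.Agent.T2H36.AT.Strict

/-! The complex conjugate representation; irreducible representations with a non-real character. -/

set_option autoImplicit false

namespace Pool.Agent.T2H36.AT

open Complex Filter Topology ComplexConjugate NumberField IsDedekindDomain
  Pool.Agent.W401.Cheb Pool.Agent.W540.BE Pool.Agent.W353.L1 Pool.Agent.R433.AT
open Pool.Agent.H341R2 (lam lam_tendsto)

section
variable {G : Type*} [Group G] {n : ℕ}

/-- the coordinatewise conjugation -/
def cc (v : Fin n → ℂ) : Fin n → ℂ := fun i => conj (v i)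

theorem cc_cc (v : Fin n → ℂ) : cc (cc v) = v := by
  funext i
  exact Complex.conj_conj _

theorem cc_add (v w : Fin n → ℂ) : cc (v + w) = cc v + cc w := by
  funext i
  exact map_add _ _ _

theorem cc_smul (a : ℂ) (v : Fin n → ℂ) : cc (a • v) = conj a • cc v := by
  funext i
  exact map_mul _ _ _

theorem cc_single (i : Fin n) : cc (Pi.single i (1 : ℂ)) = Pi.single i 1 := by
  funext j
  unfold cc
  by_cases h : j = i
  · subst h
    simp
  · simp [Pi.single_eq_of_ne h]

/-- the complex conjugate representation -/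
def conjRep (ρ : Representation ℂ G (Fin n → ℂ)) : Representation ℂ G (Fin n → ℂ) where
  toFun g :=
    { toFun := fun v => cc (ρ g (cc v))
      map_add' := fun v w => by rw [cc_add, map_add, cc_add]
      map_smul' := fun a v => by
        rw [cc_smul, map_smul, cc_smul, Complex.conj_conj]
        rfl }
  map_one' := by
    refine LinearMap.ext fun v => ?_
    change cc (ρ 1 (cc v)) = v
    rw [map_one]
    exact cc_cc v
  map_mul' g h := by
    refine LinearMap.ext fun v => ?_
    change cc (ρ (g * h) (cc v)) = cc (ρ g (cc (cc (ρ h (cc v)))))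
    rw [cc_cc, map_mul]
    rfl

theorem conjRep_apply (ρ : Representation ℂ G (Fin n → ℂ)) (g : G) (v : Fin n → ℂ) :
    conjRep ρ g v = cc (ρ g (cc v)) := rfl

theorem trace_eq (f : (Fin n → ℂ) →ₗ[ℂ] Fin n → ℂ) :
    LinearMap.trace ℂ (Fin n → ℂ) f = ∑ i, f (Pi.single i 1) i := by
  rw [LinearMap.trace_eq_matrix_trace ℂ (Pi.basisFun ℂ (Fin n)) f]
  unfold Matrix.trace
  refine Finset.sum_congr rfl fun i _ => ?_
  rw [Matrix.diag_apply, LinearMap.toMatrix_apply, Pi.basisFun_apply, Pi.basisFun_repr]

theorem conjRep_char (ρ : Representation ℂ G (Fin n → ℂ)) (g : G) :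
    (conjRep ρ).character g = conj (ρ.character g) := by
  unfold Representation.character
  rw [trace_eq, trace_eq, map_sum]
  refine Finset.sum_congr rfl fun i _ => ?_
  rw [conjRep_apply, cc_single]
  rfl

/-- transport of subrepresentations -/
def tsub (ρ ρ' : Representation ℂ G (Fin n → ℂ)) (h : ∀ g v, ρ' g (cc v) = cc (ρ g v))
    (S : Subrepresentation ρ') : Subrepresentation ρ :=
  ⟨{ carrier := {v | cc v ∈ S.toSubmodule}
     add_mem' := fun {v w} hv hw => by
      change cc (v + w) ∈ S.toSubmodule
      rw [cc_add]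
      exact S.toSubmodule.add_mem hv hw
     zero_mem' := by
      change cc (0 : Fin n → ℂ) ∈ S.toSubmodule
      have : cc (0 : Fin n → ℂ) = 0 := by
        funext i
        exact map_zero _
      rw [this]
      exact S.toSubmodule.zero_mem
     smul_mem' := fun a v hv => by
      change cc (a • v) ∈ S.toSubmodule
      rw [cc_smul]
      exact S.toSubmodule.smul_mem _ hv }, by
    intro g v hv
    change cc (ρ g v) ∈ S.toSubmodule
    rw [← h]
    exact S.apply_mem_toSubmodule g hv⟩

theorem conjRep_irr {ρ : Representation ℂ G (Fin n → ℂ)} (hρ : ρ.IsIrreducible) :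
    (conjRep ρ).IsIrreducible := by
  have hs : IsSimpleOrder (Subrepresentation ρ) := hρ
  have h1 : ∀ g v, conjRep ρ g (cc v) = cc (ρ g v) := by
    intro g v
    rw [conjRep_apply, cc_cc]
  have h2 : ∀ g v, ρ g (cc v) = cc (conjRep ρ g v) := by
    intro g v
    rw [conjRep_apply, cc_cc]
  have e : Subrepresentation (conjRep ρ) ≃o Subrepresentation ρ :=
    { toFun := tsub ρ (conjRep ρ) h1
      invFun := tsub (conjRep ρ) ρ h2
      left_inv := fun S => by
        apply Subrepresentation.toSubmodule_injective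
        ext v
        change cc (cc v) ∈ S.toSubmodule ↔ _
        rw [cc_cc]
      right_inv := fun S => by
        apply Subrepresentation.toSubmodule_injective
        ext v
        change cc (cc v) ∈ S.toSubmodule ↔ _
        rw [cc_cc]
      map_rel_iff' := by
        intro S T
        constructor
        · intro h v hv
          have h3 : cc v ∈ (tsub ρ (conjRep ρ) h1 S).toSubmodule := by
            change cc (cc v) ∈ S.toSubmodule
            rw [cc_cc]
            exact hv
          have h4 : cc (cc v) ∈ T.toSubmodule := h h3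
          rwa [cc_cc] at h4
        · intro h v hv
          have h3 : cc v ∈ S.toSubmodule := hv
          exact h h3 }
  exact e.isSimpleOrder

end

section
variable {F : Type} [Field F] [NumberField F]
  (U : Subgroup (GK F)) [U.Normal] [Finite (GK F ⧸ U)] {κ : Type*} [Fintype κ] {n : κ → ℕ}
    (ρ : ∀ k, Representation ℂ (GK F) (Fin (n k) → ℂ)) (hρ : ∀ k, ∀ u ∈ U, ρ k u = 1)

omit [Fintype κ] in
/-- the mean of the square of a non-real irreducible character is zero -/
theorem avC_sq_zero {k : κ} (hk : (ρ k).IsIrreducible)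
    (hr : ∃ g, ((ρ k).character g).im ≠ 0) :
    avC U (fun q => (chF U ρ hρ k).f q * (chF U ρ hρ k).f q) = 0 := by
  classical
  set ρ2 : ∀ _ : Bool, Representation ℂ (GK F) (Fin (n k) → ℂ) := fun b =>
    if b then ρ k else conjRep (ρ k) with hρ2
  have hρ2' : ∀ b, ∀ u ∈ U, ρ2 b u = 1 := by
    intro b u hu
    cases b
    · change conjRep (ρ k) u = 1
      refine LinearMap.ext fun v => ?_
      rw [conjRep_apply, hρ k u hu]
      exact cc_cc v
    · exact hρ k u hu
  have h1 := avC_ortho U ρ2 hρ2' (k := true) (l := false) hk (conjRep_irr hk)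
  have hne : ¬ Nonempty ((ρ2 true).Equiv (ρ2 false)) := by
    rintro ⟨e⟩
    obtain ⟨g, hg⟩ := hr
    apply hg
    have h2 : (ρ2 true).character g = (ρ2 false).character g := by
      have := Representation.char_iso e
      exact congrFun this g
    have h3 : (ρ k).character g = conj ((ρ k).character g) := h2.trans (conjRep_char (ρ k) g)
    exact Complex.conj_eq_iff_im.1 h3.symm
  rw [if_neg hne] at h1
  rw [← h1]
  congr 1
  funext q
  obtain ⟨g, rfl⟩ := QuotientGroup.mk_surjective q
  have e1 : (chF U ρ hρ k).f (QuotientGroup.mk g) = (ρ k).character g⁻¹ := rfl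
  have e2 : (chF U ρ2 hρ2' true).f (QuotientGroup.mk g) = (ρ k).character g⁻¹ := rfl
  have e3 : (chF U ρ2 hρ2' false).f (QuotientGroup.mk g) = (conjRep (ρ k)).character g⁻¹ := rfl
  rw [e1, e2, e3, conjRep_char, Complex.conj_conj]

variable {ι : Type*} [Fintype ι] {R : ι → HeightOneSpectrum (𝓞 F) → ℝ}
  (hR : MeanOne R) (hU : IsOpen (U : Set (GK F))) (τ : κ → ℝ)
    (σ : HeightOneSpectrum (𝓞 F) → GK F) (hσ : ∀ v, IsFrob v (σ v))
    {x : ι → κ → ℝ → ℝ}
    (hx : ∀ i k, Tendsto (fun ε : ℝ => (EP (nm F) ε fun v => R i v * RR (ρ k) (τ k) σ v) / lam ε -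
      x i k ε) (𝓝[>] 0) (𝓝 0))

include hρ hR hU hσ hx in
/-- **Non-real characters.** -/
theorem sq_le_half' {i : ι} {k : κ} (hk : (ρ k).IsIrreducible)
    (hr : ∃ g, ((ρ k).character g).im ≠ 0) {η : ℝ} (hη : 0 < η) :
    ∀ᶠ ε : ℝ in 𝓝[>] 0, x i k ε ^ 2 ≤ 1 / 2 + η := by
  classical
  have hg : gr U ρ hρ τ k k = 1 / 2 := by
    unfold gr
    rw [if_pos rfl, avC_sq_zero U ρ hρ hk hr, Complex.zero_re, ite_self,
      avC_ortho U ρ hρ hk hk, if_pos ⟨Representation.Equiv.refl _⟩, Complex.one_re]
    norm_num
  filter_upwards [matrix_ineq U ρ hρ hR hU τ σ hσ hx (C := 1) (η := η) hη] with ε h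
  have h1 := h (Pi.single i 1) (Pi.single k 1) (fun j => by
    by_cases hj : j = i
    · subst hj; simp
    · simp [hj]) (fun j => by
    by_cases hj : j = k
    · subst hj; simp
    · simp [hj])
  have h2 : x i k ε ^ 2 ≤ gr U ρ hρ τ k k + η := by
    simpa [Pi.single_apply] using h1
  rwa [hg] at h2

end

end Pool.Agent.T2H36.AT
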