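import Pool.Agent.T2H36.AT.Spec

/-! Integral limits: the exceptional representation and all number fields. -/

set_option autoImplicit false

namespace Pool.Agent.T2H36.AT

open Complex Filter Topology ComplexConjugate NumberField IsDedekindDomain
  Pool.Agent.W401.Cheb Pool.Agent.W540.BE Pool.Agent.W353.L1 Pool.Agent.R433.AT
  Pool.Agent.W353.AT Pool.Agent.W353.SP
open Pool.Agent.H341R2 (lam lam_tendsto)
open Pool.Agent.W353.NF (act act_apply act_trans fixn fixn_conj fixn_inv ker_act_open fixn_le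
  fixn_mul_ker cz abs_cz)

section
variable {K : Type} [Field K] [NumberField K] {T : HeightOneSpectrum (𝓞 K) → ℝ}
  (hT : MeanOne fun _ : Unit => T) {σ : HeightOneSpectrum (𝓞 K) → GK K}
  (hσ : ∀ v, IsFrob v (σ v))

/-- the mean value of a twist is an integer -/
def LimI (T : HeightOneSpectrum (𝓞 K) → ℝ) (σ : HeightOneSpectrum (𝓞 K) → GK K)
    (x : MRep (GK K)) (t : ℝ) (m : ℤ) : Prop :=
  Tendsto (fun ε : ℝ => ED K ε fun v => T v * RR x.2 t σ v) (𝓝[>] 0) (𝓝 (m : ℝ))

theorem LimI.unique {x y : MRep (GK K)} {t : ℝ} {m m' : ℤ} (h : LimI T σ x t m)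
    (h' : LimI T σ y t m') (hs : Sim x y) : m = m' := by
  unfold LimI at h h'
  rw [← hs.RR] at h'
  have := tendsto_nhds_unique h h'
  exact_mod_cast this

include hT hσ in
theorem exc_one {x : MRep (GK K)} (hx : Irr x) {t : ℝ} {m : ℤ} (h : LimI T σ x t m)
    (hm : m ≠ 0) : t = 0 ∧ (∀ g, (x.2.character g).im = 0) ∧ x.1 ≤ 2 ∧ m ^ 2 = 1 := by
  obtain ⟨U, hUn, hU, hρ⟩ := exists_common (κ := Unit) (n := fun _ => x.1)
    (fun _ => x.2) fun _ => hx.1
  have hfin : Finite (GK K ⧸ U) := Subgroup.quotient_finite_of_isOpen U hU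
  have h0 : ∀ (_ : Unit) (_ : Unit), Tendsto (fun ε : ℝ =>
      (EP (nm K) ε fun v => T v * RR x.2 t σ v) / lam ε -
      (EP (nm K) ε fun v => T v * RR x.2 t σ v) / lam ε) (𝓝[>] 0) (𝓝 0) := by
    intro _ _
    have : (fun ε : ℝ => (EP (nm K) ε fun v => T v * RR x.2 t σ v) / lam ε -
        (EP (nm K) ε fun v => T v * RR x.2 t σ v) / lam ε) = fun _ => 0 := by
      funext ε
      exact sub_self _
    rw [this]
    exact tendsto_const_nhds
  have hl : ∀ (_ : Unit) (_ : Unit), Tendsto (fun ε : ℝ =>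
      (EP (nm K) ε fun v => T v * RR x.2 t σ v) / lam ε) (𝓝[>] 0) (𝓝 (-((-m : ℤ) : ℝ))) := by
    intro _ _
    have e : -((-m : ℤ) : ℝ) = m := by push_cast; ring
    rw [e]
    exact h
  have hm' : (-m : ℤ) ≠ 0 := neg_ne_zero.2 hm
  have ex := exceptional U (fun _ : Unit => x.2) hρ hT hU (fun _ => t) σ hσ
    (x := fun _ _ ε => (EP (nm K) ε fun v => T v * RR x.2 t σ v) / lam ε) h0
    (fun _ _ => -m) hl (i := ()) (k := ()) hx.2 hm'
  have hdeg := degree_le U (fun _ : Unit => x.2) hρ hT hU (fun _ => t) σ hσ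
    (x := fun _ _ ε => (EP (nm K) ε fun v => T v * RR x.2 t σ v) / lam ε) h0
    (fun _ _ => -m) hl (i := ()) (k := ()) hx.2 hm'
  refine ⟨ex.1, im_of_chF U (fun _ : Unit => x.2) hρ ex.2.1, hdeg, ?_⟩
  have h4 : (-m) ^ 2 = 1 := ex.2.2.1
  rw [neg_sq] at h4
  exact h4

include hT hσ in
/-- two exceptional representations are equivalent -/
theorem exc_two {x y : MRep (GK K)} (hx : Irr x) (hy : Irr y) {t t' : ℝ} {m m' : ℤ}
    (h : LimI T σ x t m) (h' : LimI T σ y t' m') (hm : m ≠ 0) (hm' : m' ≠ 0) : Sim x y := by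
  classical
  by_contra hcon
  obtain ⟨ht, -, -, h1⟩ := exc_one hT hσ hx h hm
  obtain ⟨ht', -, -, h2⟩ := exc_one hT hσ hy h' hm'
  subst ht
  subst ht'
  have hne : (x, (0 : ℝ)) ≠ (y, (0 : ℝ)) := fun he =>
    hcon (by rw [(Prod.mk.inj he).1]; exact Sim.refl y)
  have hD : Dist ({(x, (0 : ℝ)), (y, (0 : ℝ))} : Finset (MRep (GK K) × ℝ)) := by
    refine ⟨fun p hp => ?_, fun p hp q hq hpq _ => ?_⟩
    · rw [Finset.mem_insert, Finset.mem_singleton] at hp
      rcases hp with rfl | rfl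
      · exact hx
      · exact hy
    · rw [Finset.mem_insert, Finset.mem_singleton] at hp hq
      rcases hp with rfl | rfl <;> rcases hq with rfl | rfl
      · exact absurd rfl hpq
      · exact hcon
      · exact fun hs => hcon hs.symm
      · exact absurd rfl hpq
  have h3 := bessel_all hT hσ (l := 𝓝[>] 0) le_rfl hD
    (y := fun p => if p = (x, (0 : ℝ)) then (m : ℝ) else (m' : ℝ)) (fun p hp => by
      rw [Finset.mem_insert, Finset.mem_singleton] at hp
      rcases hp with rfl | rfl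
      · rw [if_pos rfl]
        exact ⟨(bd_T hT).mul (bd_RRt hx.1 0 σ), h⟩
      · rw [if_neg (Ne.symm hne)]
        exact ⟨(bd_T hT).mul (bd_RRt hy.1 0 σ), h'⟩)
  rw [Finset.sum_pair hne, if_pos rfl, if_neg (Ne.symm hne)] at h3
  have h1' : (m : ℝ) ^ 2 = 1 := by exact_mod_cast h1
  have h2' : (m' : ℝ) ^ 2 = 1 := by exact_mod_cast h2
  rw [h1', h2'] at h3
  norm_num at h3

/-- **The limit for a number field whose constituents have limits.** -/
theorem field_has (hT : MeanOne fun _ : Unit => T) {l : Filter ℝ} (hmn : Mn l (ED K)) {t : ℝ}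
    {zA : MRep (GK K) → ℝ} (F : IntermediateField K (AlgebraicClosure K)) [NumberField F]
    [l.NeBot]
    (hzA : ∀ x, Irr x → fixedDim x.2 F ≠ 0 → Hs l (ED K) (fun v => T v * RR x.2 t σ v) (zA x))
    {S : Finset (MRep (GK K))} (hS1 : ∀ p ∈ S, Irr p)
    (hS2 : ∀ p ∈ S, ∀ q ∈ S, p ≠ q → ¬ Sim p q)
    (hS3 : ∀ x, Irr x → (∀ p ∈ S, ¬ Sim x p) → fixedDim x.2 F = 0) :
    Hs l (ED K) (fun v => T v * (fixn K F (σ v) * cz t v)) (∑ p ∈ S, zA p * fixedDim p.2 F) := by
  classical
  obtain ⟨U, L, S', hUn, hU, hF, hL, hfix, hm, -, -, -⟩ := exists_fam F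
  have hL' : ∀ x ∈ L, Irr x := fun x hx => (hL x hx).1
  have hLd : ∀ x ∈ L, fixedDim x.2 F ≠ 0 := fun x hx => by
    rw [← hm x (hL' x hx)]
    exact mult_ne_zero hx
  have hcong : ∀ x y, (Irr x ∧ fixedDim x.2 F ≠ 0) → (Irr y ∧ fixedDim y.2 F ≠ 0) → Sim x y →
      zA x = zA y := by
    intro x y hx hy hs
    refine (hzA x hx.1 hx.2).unique (hzA y hy.1 hy.2) fun v => ?_
    rw [hs.RR]
  have h3 : ∀ L' : List (MRep (GK K)), (∀ x ∈ L', Irr x ∧ fixedDim x.2 F ≠ 0) →
      Hs l (ED K) (fun v => T v * (L'.map fun x => RR x.2 t σ v).sum) (L'.map zA).sum := by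
    intro L' hL'
    induction L' with
    | nil => exact hmn.hsZero.congr (fun v => by simp) (by simp)
    | cons x L' ih =>
      refine (hmn.hsAdd (hzA x (hL' x List.mem_cons_self).1 (hL' x List.mem_cons_self).2)
        (ih fun y hy => hL' y (List.mem_cons_of_mem _ hy))).congr (fun v => ?_) ?_
      · rw [List.map_cons, List.sum_cons, mul_add]
      · rw [List.map_cons, List.sum_cons]
  have h4 := h3 L fun x hx => ⟨hL' x hx, hLd x hx⟩
  set S1 : Finset (MRep (GK K)) := S.filter fun p => fixedDim p.2 F ≠ 0 with hS1d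
  have h5 : (L.map zA).sum = ∑ p ∈ S, zA p * fixedDim p.2 F := by
    rw [list_fam (P := fun x => Irr x ∧ fixedDim x.2 F ≠ 0) hcong (S := S1)
      (fun p hp => ⟨hS1 p (Finset.mem_filter.1 hp).1, (Finset.mem_filter.1 hp).2⟩)
      (fun p hp q hq => hS2 p (Finset.mem_filter.1 hp).1 q (Finset.mem_filter.1 hq).1) L
      (fun x hx => ⟨hL' x hx, hLd x hx⟩) (fun x hx => ?_), hS1d, Finset.sum_filter]
    · refine Finset.sum_congr rfl fun p hp => ?_
      by_cases h : fixedDim p.2 F ≠ 0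
      · rw [if_pos h, hm p (hS1 p hp)]
      · rw [if_neg h]
        push Not at h
        rw [h, Nat.cast_zero, mul_zero]
    · by_contra hcon
      push Not at hcon
      have h6 : ∀ p ∈ S, ¬ Sim x p := by
        intro p hp hs
        refine hcon p (Finset.mem_filter.2 ⟨hp, ?_⟩) hs
        intro h0
        have h7 : mult L x = mult L p := by
          unfold mult
          congr 1
          refine List.map_congr_left fun y _ => ?_
          by_cases hy : Sim y x
          · rw [if_pos hy, if_pos (hy.trans hs)]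
          · rw [if_neg hy, if_neg fun h => hy (h.trans hs.symm)]
        rw [hm x (hL' x hx), hm p (hS1 p hp), h0] at h7
        exact hLd x hx h7
      exact hLd x hx (hS3 x (hL' x hx) h6)
  refine h4.congr (fun v => ?_) h5
  congr 1
  exact list_phase F hfix t v

include hT hσ in
/-- no exceptional constituent -/
theorem field_zero {t : ℝ} (F : IntermediateField K (AlgebraicClosure K)) [NumberField F]
    (hF : ∀ x, Irr x → fixedDim x.2 F ≠ 0 → LimI T σ x t 0) :
    Tendsto (fun ε : ℝ => ED K ε fun v => T v * (fixn K F (σ v) * cz t v)) (𝓝[>] 0) (𝓝 0) := by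
  obtain ⟨S, h1, h2, h3, -⟩ := exists_cover F
  have h4 := field_has hT (mnD K) (t := t) (zA := fun _ => 0) (σ := σ) F (fun x hx hd =>
    ⟨(bd_T hT).mul (bd_RRt hx.1 t σ), by
      have := hF x hx hd
      unfold LimI at this
      rwa [Int.cast_zero] at this⟩) h1 h2 h3
  have h5 := h4.2
  simpa using h5

include hT hσ in
/-- **All number fields in terms of the exceptional representation.** -/
theorem field_exc {t : ℝ} {x₀ : MRep (GK K)} (hx₀ : Irr x₀) {m₀ : ℤ} (hm₀ : LimI T σ x₀ t m₀)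
    (h0 : m₀ ≠ 0) (F : IntermediateField K (AlgebraicClosure K)) [NumberField F]
    (hF : ∀ x, Irr x → fixedDim x.2 F ≠ 0 → ∃ m, LimI T σ x t m) :
    Tendsto (fun ε : ℝ => ED K ε fun v => T v * (fixn K F (σ v) * cz t v)) (𝓝[>] 0)
      (𝓝 ((m₀ : ℝ) * fixedDim x₀.2 F)) := by
  classical
  obtain ⟨S, h1, h2, h3, -⟩ := exists_cover F
  set S' : Finset (MRep (GK K)) := insert x₀ (S.filter fun p => ¬ Sim p x₀) with hS'
  have a1 : ∀ p ∈ S', Irr p := by
    intro p hp
    rcases Finset.mem_insert.1 hp with rfl | hp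
    · exact hx₀
    · exact h1 p (Finset.mem_filter.1 hp).1
  have a2 : ∀ p ∈ S', ∀ q ∈ S', p ≠ q → ¬ Sim p q := by
    intro p hp q hq hpq
    rcases Finset.mem_insert.1 hp with hp' | hp'
    · rcases Finset.mem_insert.1 hq with hq' | hq'
      · exact absurd (hp'.trans hq'.symm) hpq
      · rw [hp']
        exact fun hs => (Finset.mem_filter.1 hq').2 hs.symm
    · rcases Finset.mem_insert.1 hq with hq' | hq'
      · rw [hq']
        exact (Finset.mem_filter.1 hp').2
      · exact h2 p (Finset.mem_filter.1 hp').1 q (Finset.mem_filter.1 hq').1 hpq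
  have a3 : ∀ x, Irr x → (∀ p ∈ S', ¬ Sim x p) → fixedDim x.2 F = 0 := by
    intro x hx hxS
    refine h3 x hx fun p hp hs => ?_
    by_cases hpx : Sim p x₀
    · exact hxS x₀ (Finset.mem_insert_self _ _) (hs.trans hpx)
    · exact hxS p (Finset.mem_insert_of_mem (Finset.mem_filter.2 ⟨hp, hpx⟩)) hs
  -- the mean values
  set zA : MRep (GK K) → ℝ := fun x => if Sim x x₀ then (m₀ : ℝ) else 0 with hzA
  have hz : ∀ x, Irr x → fixedDim x.2 F ≠ 0 →
      Hs (𝓝[>] 0) (ED K) (fun v => T v * RR x.2 t σ v) (zA x) := by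
    intro x hx hd
    obtain ⟨m, hm⟩ := hF x hx hd
    have e : (m : ℝ) = zA x := by
      rw [hzA]
      simp only
      by_cases hs : Sim x x₀
      · rw [if_pos hs]
        exact_mod_cast hm.unique hm₀ hs
      · rw [if_neg hs]
        by_contra hne
        have hne' : m ≠ 0 := fun h => hne (by rw [h, Int.cast_zero])
        exact hs (exc_two hT hσ hx hx₀ hm hm₀ hne' h0)
    refine ⟨(bd_T hT).mul (bd_RRt hx.1 t σ), ?_⟩
    rw [← e]
    exact hm
  have h4 := (field_has hT (mnD K) F hz a1 a2 a3).2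
  have h5 : ∑ p ∈ S', zA p * fixedDim p.2 F = (m₀ : ℝ) * fixedDim x₀.2 F := by
    rw [Finset.sum_eq_single_of_mem x₀ (Finset.mem_insert_self _ _)]
    · rw [hzA]
      simp only
      rw [if_pos (Sim.refl x₀)]
    · intro p hp hpx
      rw [hzA]
      simp only
      rw [if_neg (a2 p hp x₀ (Finset.mem_insert_self _ _) hpx), zero_mul]
  rwa [h5] at h4

/-- the fields `F` and `F ∩ M` -/
theorem exists_M₀ {x : MRep (GK K)} (hx : IsArtin x.2) :
    ∃ M : IntermediateField K (AlgebraicClosure K), FiniteDimensional K M ∧ IsGalois K M ∧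
      ∀ F : IntermediateField K (AlgebraicClosure K),
        fixedDim x.2 F = fixedDim x.2 (F ⊓ M : IntermediateField K (AlgebraicClosure K)) := by
  obtain ⟨U, hUn, hU, hρ⟩ := exists_common (κ := Unit) (n := fun _ => x.1)
    (fun _ => x.2) fun _ => hx
  set M : IntermediateField K (AlgebraicClosure K) := IntermediateField.fixedField U with hM
  have hMU : M.fixingSubgroup = U :=
    InfiniteGalois.fixingSubgroup_fixedField ⟨U, U.isClosed_of_isOpen hU⟩
  have hMf : FiniteDimensional K M ∧ IsGalois K M := by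
    rw [← InfiniteGalois.isOpen_and_normal_iff_finite_and_isGalois, hMU]
    exact ⟨hU, hUn⟩
  exact ⟨M, hMf.1, hMf.2, fun F => fixed_inf hU hMU F x (hρ ())⟩

end

end Pool.Agent.T2H36.AT
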