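import Pool.Agent.R433.AT.Equal

/-! The Gram matrix of inequivalent irreducible Artin representations with heights is at most one;
the sum of the squares of the sizes. -/

set_option autoImplicit false

namespace Pool.Agent.T2H36.AT

open Complex Filter Topology ComplexConjugate NumberField IsDedekindDomain
  Pool.Agent.W401.Cheb Pool.Agent.W540.BE Pool.Agent.W353.L1 Pool.Agent.R433.AT
open Pool.Agent.H341R2 (lam lam_tendsto)

/-- the pointwise inequality -/
theorem pointwise_le {κ : Type*} [Fintype κ] (τ d : κ → ℝ) (f : κ → ℂ) :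
    (∑ k, ∑ l, if τ k = -τ l then d k * d l * (f k * f l).re else 0) ≤
      ∑ k, ∑ l, if τ k = τ l then d k * d l * (f k * conj (f l)).re else 0 := by
  classical
  set T : Finset ℝ := Finset.univ.image τ ∪ Finset.univ.image (fun k => -τ k) with hT
  have hTm : ∀ k, τ k ∈ T := fun k =>
    Finset.mem_union_left _ (Finset.mem_image_of_mem _ (Finset.mem_univ _))
  have hTn : ∀ t ∈ T, -t ∈ T := by
    intro t ht
    rw [hT, Finset.mem_union, Finset.mem_image, Finset.mem_image] at ht ⊢
    rcases ht with ⟨k, -, h⟩ | ⟨k, -, h⟩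
    · exact Or.inr ⟨k, Finset.mem_univ _, by rw [h]⟩
    · exact Or.inl ⟨k, Finset.mem_univ _, by rw [← h, neg_neg]⟩
  set F : ℝ → ℂ := fun t => ∑ k, if τ k = t then (d k : ℂ) * f k else 0 with hF
  have hinv : ∀ g : ℝ → ℝ, ∑ t ∈ T, g (-t) = ∑ t ∈ T, g t := by
    intro g
    refine Finset.sum_nbij' (fun t => -t) (fun t => -t) hTn hTn (fun t _ => neg_neg t)
      (fun t _ => neg_neg t) (fun t _ => rfl)
  have h1 : ∀ t : ℝ, 2 * (F t * F (-t)).re ≤ (F t * conj (F t)).re +
      (F (-t) * conj (F (-t))).re := by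
    intro t
    simp only [Complex.mul_re, Complex.conj_re, Complex.conj_im]
    nlinarith [sq_nonneg ((F t).re - (F (-t)).re), sq_nonneg ((F t).im + (F (-t)).im)]
  have h2 : ∑ t ∈ T, (F t * F (-t)).re ≤ ∑ t ∈ T, (F t * conj (F t)).re := by
    have h3 := Finset.sum_le_sum fun t (_ : t ∈ T) => h1 t
    rw [Finset.sum_add_distrib, hinv fun t => (F t * conj (F t)).re, ← Finset.mul_sum] at h3
    linarith
  have e1 : ∑ t ∈ T, (F t * F (-t)).re =
      ∑ k, ∑ l, if τ k = -τ l then d k * d l * (f k * f l).re else 0 := by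
    have e2 : ∀ t, (F t * F (-t)).re = ∑ k, ∑ l, if τ k = t then
        (if τ k = -τ l then d k * d l * (f k * f l).re else 0) else 0 := by
      intro t
      rw [hF]
      simp only
      rw [Finset.sum_mul_sum, Complex.re_sum]
      refine Finset.sum_congr rfl fun k _ => ?_
      rw [Complex.re_sum]
      refine Finset.sum_congr rfl fun l _ => ?_
      by_cases h4 : τ k = t
      · rw [if_pos h4, if_pos h4]
        by_cases h5 : τ k = -τ l
        · have h6 : τ l = -t := by rw [← h4, h5, neg_neg]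
          rw [if_pos h6, if_pos h5]
          have : (d k : ℂ) * f k * ((d l : ℂ) * f l) = ((d k * d l : ℝ) : ℂ) * (f k * f l) := by
            push_cast
            ring
          rw [this, Complex.re_ofReal_mul]
        · have h6 : ¬ τ l = -t := fun h => h5 (by rw [h, h4, neg_neg])
          rw [if_neg h6, if_neg h5, mul_zero, Complex.zero_re]
      · rw [if_neg h4, if_neg h4, zero_mul, Complex.zero_re]
    simp only [e2]
    rw [Finset.sum_comm]
    refine Finset.sum_congr rfl fun k _ => ?_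
    rw [Finset.sum_comm]
    refine Finset.sum_congr rfl fun l _ => ?_
    rw [Finset.sum_ite_eq T (τ k), if_pos (hTm k)]
  have e3 : ∑ t ∈ T, (F t * conj (F t)).re =
      ∑ k, ∑ l, if τ k = τ l then d k * d l * (f k * conj (f l)).re else 0 := by
    have e2 : ∀ t, (F t * conj (F t)).re = ∑ k, ∑ l, if τ k = t then
        (if τ k = τ l then d k * d l * (f k * conj (f l)).re else 0) else 0 := by
      intro t
      rw [hF]
      simp only
      rw [map_sum, Finset.sum_mul_sum, Complex.re_sum]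
      refine Finset.sum_congr rfl fun k _ => ?_
      rw [Complex.re_sum]
      refine Finset.sum_congr rfl fun l _ => ?_
      by_cases h4 : τ k = t
      · rw [if_pos h4, if_pos h4]
        by_cases h5 : τ k = τ l
        · have h6 : τ l = t := by rw [← h5, h4]
          rw [if_pos h6, if_pos h5, map_mul, Complex.conj_ofReal]
          have : (d k : ℂ) * f k * ((d l : ℂ) * conj (f l)) =
              ((d k * d l : ℝ) : ℂ) * (f k * conj (f l)) := by
            push_cast
            ring
          rw [this, Complex.re_ofReal_mul]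
        · have h6 : ¬ τ l = t := fun h => h5 (by rw [h, h4])
          rw [if_neg h6, if_neg h5, map_zero, mul_zero, Complex.zero_re]
      · rw [if_neg h4, if_neg h4, zero_mul, Complex.zero_re]
    simp only [e2]
    rw [Finset.sum_comm]
    refine Finset.sum_congr rfl fun k _ => ?_
    rw [Finset.sum_comm]
    refine Finset.sum_congr rfl fun l _ => ?_
    rw [Finset.sum_ite_eq T (τ k), if_pos (hTm k)]
  rw [e1, e3] at h2
  exact h2

section
variable {F : Type} [Field F] [NumberField F]
  (U : Subgroup (GK F)) [U.Normal] [Finite (GK F ⧸ U)] {κ : Type*} [Fintype κ] {n : κ → ℕ}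
    (ρ : ∀ k, Representation ℂ (GK F) (Fin (n k) → ℂ)) (hρ : ∀ k, ∀ u ∈ U, ρ k u = 1)

/-- **The Gram matrix is at most one.** -/
theorem gram_le (τ : κ → ℝ) (hirr : ∀ k, (ρ k).IsIrreducible)
    (hne : ∀ k l, k ≠ l → τ k = τ l → IsEmpty ((ρ k).Equiv (ρ l))) (d : κ → ℝ) :
    ∑ k, ∑ l, d k * d l * gr U ρ hρ τ k l ≤ ∑ k, d k ^ 2 := by
  classical
  let _ : Fintype (GK F ⧸ U) := Fintype.ofFinite _
  have hc : (0 : ℝ) < Nat.card (GK F ⧸ U) := by exact_mod_cast Nat.card_pos
  set f : κ → GK F ⧸ U → ℂ := fun k => (chF U ρ hρ k).f with hf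
  -- averages of double sums
  have key : ∀ (P : κ → κ → Prop) [∀ k l, Decidable (P k l)] (ψ : κ → κ → GK F ⧸ U → ℂ),
      ∑ k, ∑ l, d k * d l * (if P k l then (avC U (ψ k l)).re else 0) =
        (Nat.card (GK F ⧸ U) : ℝ)⁻¹ * ∑ q, ∑ k, ∑ l,
          if P k l then d k * d l * (ψ k l q).re else 0 := by
    intro P _ ψ
    have e0 : (∑ q, ∑ k, ∑ l, if P k l then d k * d l * (ψ k l q).re else 0) =
        ∑ k, ∑ l, ∑ q, if P k l then d k * d l * (ψ k l q).re else 0 := by
      rw [Finset.sum_comm]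
      exact Finset.sum_congr rfl fun k _ => Finset.sum_comm
    rw [e0, Finset.mul_sum]
    refine Finset.sum_congr rfl fun k _ => ?_
    rw [Finset.mul_sum]
    refine Finset.sum_congr rfl fun l _ => ?_
    by_cases h : P k l
    · simp only [if_pos h]
      rw [avC_re]
      unfold avR
      rw [finsum_eq_sum_of_fintype, ← Finset.mul_sum]
      ring
    · simp only [if_neg h, mul_zero, Finset.sum_const_zero]
  have hA := key (fun k l => τ k = τ l) fun k l q => f k q * conj (f l q)
  have hB := key (fun k l => τ k = -τ l) fun k l q => f k q * f l q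
  have hle : (∑ k, ∑ l, d k * d l * (if τ k = -τ l then (avC U fun q => f k q * f l q).re else 0)) ≤
      ∑ k, ∑ l, d k * d l * (if τ k = τ l then (avC U fun q => f k q * conj (f l q)).re else 0) := by
    rw [hA, hB]
    exact mul_le_mul_of_nonneg_left (Finset.sum_le_sum fun q _ => pointwise_le τ d fun k => f k q)
      (inv_pos.2 hc).le
  have hD : ∑ k, ∑ l, d k * d l * (if τ k = τ l then (avC U fun q => f k q * conj (f l q)).re else 0)
      = ∑ k, d k ^ 2 := by
    refine Finset.sum_congr rfl fun k _ => ?_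
    rw [Finset.sum_eq_single k]
    · rw [if_pos rfl, avC_ortho U ρ hρ (hirr k) (hirr k), if_pos ⟨Representation.Equiv.refl _⟩,
        Complex.one_re]
      ring
    · intro l _ hl
      by_cases h : τ k = τ l
      · rw [if_pos h, avC_ortho U ρ hρ (hirr k) (hirr l), if_neg (by
          rw [not_nonempty_iff]
          exact hne k l (Ne.symm hl) h), Complex.zero_re, mul_zero]
      · rw [if_neg h, mul_zero]
    · intro h
      exact absurd (Finset.mem_univ _) h
  have e : ∑ k, ∑ l, d k * d l * gr U ρ hρ τ k l =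
      ((∑ k, ∑ l, d k * d l * (if τ k = τ l then (avC U fun q => f k q * conj (f l q)).re else 0)) +
        ∑ k, ∑ l, d k * d l * (if τ k = -τ l then (avC U fun q => f k q * f l q).re else 0)) / 2 := by
    rw [← Finset.sum_add_distrib, Finset.sum_div]
    refine Finset.sum_congr rfl fun k _ => ?_
    rw [← Finset.sum_add_distrib, Finset.sum_div]
    refine Finset.sum_congr rfl fun l _ => ?_
    unfold gr
    ring
  rw [e]
  rw [hD] at hle ⊢
  linarith

variable {ι : Type*} [Fintype ι] {R : ι → HeightOneSpectrum (𝓞 F) → ℝ}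
  (hR : MeanOne R) (hU : IsOpen (U : Set (GK F))) (τ : κ → ℝ)
    (σ : HeightOneSpectrum (𝓞 F) → GK F) (hσ : ∀ v, IsFrob v (σ v))
    {x : ι → κ → ℝ → ℝ}
    (hx : ∀ i k, Tendsto (fun ε : ℝ => (EP (nm F) ε fun v => R i v * RR (ρ k) (τ k) σ v) / lam ε -
      x i k ε) (𝓝[>] 0) (𝓝 0))

include hρ hR hU hσ hx in
/-- the sizes are bounded -/
theorem size_le_two (hirr : ∀ k, (ρ k).IsIrreducible) (i : ι) (k : κ) :
    ∀ᶠ ε : ℝ in 𝓝[>] 0, |x i k ε| ≤ 2 := by
  classical
  filter_upwards [matrix_ineq U ρ hρ hR hU τ σ hσ hx (C := 1) (η := 1) one_pos] with ε h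
  have h1 := h (Pi.single i 1) (Pi.single k 1) (fun j => by
    by_cases hj : j = i
    · subst hj; simp
    · simp [hj]) (fun j => by
    by_cases hj : j = k
    · subst hj; simp
    · simp [hj])
  have h2 : x i k ε ^ 2 ≤ gr U ρ hρ τ k k + 1 := by
    simpa [Pi.single_apply] using h1
  have h3 := gr_self_le U ρ hρ τ (hirr k)
  exact abs_le_of_sq_le_sq (by linarith : x i k ε ^ 2 ≤ 2 ^ 2) (by norm_num)

include hρ hR hU hσ hx in
/-- **The sum of the squares of the sizes.** -/
theorem sum_sq_le (hirr : ∀ k, (ρ k).IsIrreducible)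
    (hne : ∀ k l, k ≠ l → τ k = τ l → IsEmpty ((ρ k).Equiv (ρ l))) {C η : ℝ} (hη : 0 < η) :
    ∀ᶠ ε : ℝ in 𝓝[>] 0, ∀ c : ι → ℝ, (∀ i, 0 ≤ c i ∧ c i ≤ C) →
      ∑ k, (∑ i, c i * x i k ε) ^ 2 ≤ (∑ i, c i ^ 2) + η := by
  classical
  have hb : ∀ᶠ ε : ℝ in 𝓝[>] 0, ∀ i k, |x i k ε| ≤ 2 := by
    rw [Filter.eventually_all]
    intro i
    rw [Filter.eventually_all]
    exact fun k => size_le_two U ρ hρ hR hU τ σ hσ hx hirr i k
  set D : ℝ := max C ((Fintype.card ι : ℝ) * (|C| * 2)) with hD
  filter_upwards [hb, matrix_ineq U ρ hρ hR hU τ σ hσ hx (C := D) (η := η ^ 2) (by positivity)]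
    with ε h1 h2 c hc
  set y : κ → ℝ := fun k => ∑ i, c i * x i k ε with hy
  have hyb : ∀ k, |y k| ≤ D := by
    intro k
    refine le_trans ?_ (le_max_right _ _)
    refine (Finset.abs_sum_le_sum_abs _ _).trans ?_
    refine (Finset.sum_le_card_nsmul _ _ (|C| * 2) fun i _ => ?_).trans (le_of_eq ?_)
    · rw [abs_mul]
      refine mul_le_mul ?_ (h1 i k) (abs_nonneg _) (abs_nonneg _)
      rw [abs_of_nonneg (hc i).1]
      exact (hc i).2.trans (le_abs_self C)
    · rw [nsmul_eq_mul, Finset.card_univ]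
  have h3 := h2 c y (fun i => ⟨(hc i).1, (hc i).2.trans (le_max_left _ _)⟩) hyb
  have e : ∑ i, ∑ k, c i * y k * x i k ε = ∑ k, y k ^ 2 := by
    rw [Finset.sum_comm]
    refine Finset.sum_congr rfl fun k _ => ?_
    rw [sq, hy]
    simp only
    rw [Finset.mul_sum]
    exact Finset.sum_congr rfl fun i _ => by ring
  have h4 := gram_le U ρ hρ τ hirr hne y
  rw [e] at h3
  have hP : 0 ≤ ∑ i, c i ^ 2 := Finset.sum_nonneg fun i _ => sq_nonneg _
  have h5 := mul_le_mul_of_nonneg_left h4 hP
  by_contra hcon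
  push Not at hcon
  set S := ∑ k, y k ^ 2 with hS
  set P := ∑ i, c i ^ 2 with hPd
  have h6 : S * (P + η) < S * S := mul_lt_mul_of_pos_left hcon (by linarith)
  nlinarith

end

end Pool.Agent.T2H36.AT
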