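import Pool.Agent.T2H36.AT.Conj
import Pool.Agent.W353.SP.Inst

/-! The spectrum of a function of mean square one over all number fields and all heights. -/

set_option autoImplicit false

namespace Pool.Agent.T2H36.AT

open Complex Filter Topology ComplexConjugate NumberField IsDedekindDomain
  Pool.Agent.W401.Cheb Pool.Agent.W540.BE Pool.Agent.W353.L1 Pool.Agent.R433.AT
  Pool.Agent.W353.AT Pool.Agent.W353.SP
open Pool.Agent.H341R2 (lam lam_tendsto)
open Pool.Agent.W353.NF (act act_apply act_trans fixn fixn_conj fixn_inv ker_act_open fixn_le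
  fixn_mul_ker cz abs_cz)

section
variable {K : Type} [Field K] [NumberField K] {ι : Type} {l l' : Filter ι}
  {E : ι → (HeightOneSpectrum (𝓞 K) → ℝ) → ℝ}

theorem mn_mono (h : Mn l E) (hl : l' ≤ l) : Mn l' E where
  add f g hf hg := hl (h.add f g hf hg)
  smul := h.smul
  mono f g hf hg hfg := hl (h.mono f g hf hg hfg)
  one := h.one.mono_left hl
  fin f hf hs := (h.fin f hf hs).mono_left hl
  cheb U _ _ hU ψ hψ c hc σ hσ := (h.cheb U hU ψ hψ c hc σ hσ).mono_left hl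

/-- bounded functions have mean values along an ultrafilter -/
theorem exists_hs {𝒰 : Ultrafilter ι} (h : Mn (𝒰 : Filter ι) E)
    {f : HeightOneSpectrum (𝓞 K) → ℝ} (hf : Bd f) : ∃ m : ℝ, Hs (𝒰 : Filter ι) E f m := by
  have hf' := hf
  obtain ⟨B, hB⟩ := hf
  have h1 := h.bound hB
  have h2 : (𝒰.map fun i => E i f : Filter ℝ) ≤ 𝓟 (Set.Icc (-(2 * |B|)) (2 * |B|)) := by
    rw [Filter.le_principal_iff]
    change _ ∈ Filter.map _ _
    rw [Filter.mem_map]
    filter_upwards [h1] with i hi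
    exact abs_le.1 hi
  obtain ⟨m, -, hm⟩ := isCompact_Icc.ultrafilter_le_nhds _ h2
  exact ⟨m, hf', hm⟩

end

section
variable {K : Type} [Field K] [NumberField K] {T : HeightOneSpectrum (𝓞 K) → ℝ}
  (hT : MeanOne fun _ : Unit => T) {σ : HeightOneSpectrum (𝓞 K) → GK K}
  (hσ : ∀ v, IsFrob v (σ v))

theorem bd_T (hT : MeanOne fun _ : Unit => T) : Bd T := ⟨2, hT.1 ()⟩

theorem bd_RRt {x : MRep (GK K)} (hx : IsArtin x.2) (t : ℝ)
    (σ : HeightOneSpectrum (𝓞 K) → GK K) : Bd fun v => RR x.2 t σ v := by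
  obtain ⟨U, hUn, hU, hx1⟩ := exists_common (κ := Unit) (n := fun _ => x.1)
    (fun _ => x.2) fun _ => hx
  have hfin : Finite (GK K ⧸ U) := Subgroup.quotient_finite_of_isOpen U hU
  exact ⟨x.1, fun v => abs_RR_le U x.2 (hx1 ()) _ _ _⟩

/-- inequivalent pairs -/
def Dist (S : Finset (MRep (GK K) × ℝ)) : Prop :=
  (∀ p ∈ S, Irr p.1) ∧ ∀ p ∈ S, ∀ q ∈ S, p ≠ q → p.2 = q.2 → ¬ Sim p.1 q.1

include hT hσ in
/-- **Bessel's inequality for all heights.** -/
theorem bessel_all {l : Filter ℝ} [l.NeBot] (hl : l ≤ 𝓝[>] 0) {S : Finset (MRep (GK K) × ℝ)}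
    (hS : Dist S) {y : MRep (GK K) × ℝ → ℝ}
    (hy : ∀ p ∈ S, Hs l (ED K) (fun v => T v * RR p.1.2 p.2 σ v) (y p)) :
    ∑ p ∈ S, (y p) ^ 2 ≤ 1 := by
  classical
  obtain ⟨U, hUn, hU, hρ⟩ := exists_common (κ := S) (n := fun k => k.1.1.1)
    (fun k => k.1.1.2) fun k => (hS.1 k.1 k.2).1
  have hfin : Finite (GK K ⧸ U) := Subgroup.quotient_finite_of_isOpen U hU
  refine le_of_forall_pos_le_add fun η hη => ?_
  have h1 := sum_sq_le U (κ := S) (n := fun k => k.1.1.1) (fun k => k.1.1.2) hρ hT hU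
    (fun k => k.1.2) σ hσ
    (x := fun _ k ε => (EP (nm K) ε fun v => T v * RR k.1.1.2 k.1.2 σ v) / lam ε)
    (fun _ k => by
      have : (fun ε : ℝ => (EP (nm K) ε fun v => T v * RR k.1.1.2 k.1.2 σ v) / lam ε -
        (EP (nm K) ε fun v => T v * RR k.1.1.2 k.1.2 σ v) / lam ε) = fun _ => 0 := by
        funext ε
        exact sub_self _
      rw [this]
      exact tendsto_const_nhds) (fun k => (hS.1 k.1 k.2).2) (fun k k' hkk ht =>
        not_nonempty_iff.1 (hS.2 k.1 k.2 k'.1 k'.2 (fun h => hkk (Subtype.ext h)) ht))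
    (C := 1) hη
  have h2 : Tendsto (fun ε => ∑ k : S, (ED K ε fun v => T v * RR k.1.1.2 k.1.2 σ v) ^ 2) l
      (𝓝 (∑ k : S, (y k.1) ^ 2)) :=
    tendsto_finsetSum _ fun k _ => (hy k.1 k.2).2.pow 2
  rw [Finset.sum_coe_sort S (fun p => (y p) ^ 2)] at h2
  refine le_of_tendsto h2 ?_
  filter_upwards [hl h1] with ε h3
  have h4 := h3 (fun _ => 1) (fun _ => ⟨zero_le_one, le_rfl⟩)
  simpa [ED] using h4

/-- the factor `fixn` times the phase in terms of a list -/
theorem list_phase (F : IntermediateField K (AlgebraicClosure K)) [NumberField F]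
    {L : List (MRep (GK K))} (hfix : ∀ g, (fixn K F g : ℂ) = (L.map fun x => x.2.character g).sum)
    (t : ℝ) (v : HeightOneSpectrum (𝓞 K)) :
    (L.map fun x => RR x.2 t σ v).sum = fixn K F (σ v) * cz t v := by
  have e1 : ∀ L' : List (MRep (GK K)), (L'.map fun x => RR x.2 t σ v).sum =
      ((L'.map fun x : MRep (GK K) => x.2.character (σ v)⁻¹).sum * zz t v).re := by
    intro L'
    induction L' with
    | nil => simp
    | cons x L' ih =>
      rw [List.map_cons, List.sum_cons, ih, List.map_cons, List.sum_cons, add_mul,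
        Complex.add_re]
      rfl
  rw [e1, ← hfix, fixn_inv]
  unfold cz
  have e2 : ((fixn K F (σ v) : ℕ) : ℂ) = (((fixn K F (σ v) : ℕ) : ℝ) : ℂ) := by
    push_cast
    rfl
  rw [e2, Complex.re_ofReal_mul]

/-- the families of a number field -/
theorem exists_cover (F : IntermediateField K (AlgebraicClosure K)) [NumberField F] :
    ∃ S : Finset (MRep (GK K)), (∀ p ∈ S, Irr p) ∧
      (∀ p ∈ S, ∀ q ∈ S, p ≠ q → ¬ Sim p q) ∧
      (∀ x, Irr x → (∀ p ∈ S, ¬ Sim x p) → fixedDim x.2 F = 0) ∧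
      ∑ p ∈ S, (fixedDim p.2 F : ℝ) ^ 2 ≤ Module.finrank K F := by
  obtain ⟨U, L, S, hUn, hU, hF, hL, hfix, hm, hS1, hS2, hS3⟩ := exists_fam F
  refine ⟨S, fun p hp => (hL p (hS1 p hp)).1, hS2, fun x hx hxS => ?_,
    Pool.Agent.W353.SP.sum_sq_le F (fun x hx => (hL x hx).1) hfix hm hS1 hS2 hS3⟩
  by_contra hne
  rw [← hm x hx] at hne
  obtain ⟨y, hy, hyx⟩ := mult_pos hne
  obtain ⟨p, hp, hyp⟩ := hS3 y hy
  exact hxS p hp (hyx.symm.trans hyp)

/-- **The formula for a number field.** -/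
theorem zF_formula {l : Filter ℝ} [l.NeBot] (hmn : Mn l (ED K)) {t : ℝ} {zA : MRep (GK K) → ℝ}
    (hzA : ∀ x, Irr x → Hs l (ED K) (fun v => T v * RR x.2 t σ v) (zA x))
    (F : IntermediateField K (AlgebraicClosure K)) [NumberField F] {zF : ℝ}
    (hzF : Hs l (ED K) (fun v => T v * (fixn K F (σ v) * cz t v)) zF)
    {S : Finset (MRep (GK K))} (hS1 : ∀ p ∈ S, Irr p)
    (hS2 : ∀ p ∈ S, ∀ q ∈ S, p ≠ q → ¬ Sim p q)
    (hS3 : ∀ x, Irr x → (∀ p ∈ S, ¬ Sim x p) → fixedDim x.2 F = 0) :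
    zF = ∑ p ∈ S, zA p * fixedDim p.2 F := by
  obtain ⟨U, L, S', hUn, hU, hF, hL, hfix, hm, -, -, -⟩ := exists_fam F
  have hL' : ∀ x ∈ L, Irr x := fun x hx => (hL x hx).1
  have hcong : ∀ x y, Irr x → Irr y → Sim x y → zA x = zA y := by
    intro x y hx hy hs
    refine (hzA x hx).unique (hzA y hy) fun v => ?_
    rw [hs.RR]
  have h3 : ∀ L' : List (MRep (GK K)), (∀ x ∈ L', Irr x) →
      Hs l (ED K) (fun v => T v * (L'.map fun x => RR x.2 t σ v).sum) (L'.map zA).sum := by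
    intro L' hL'
    induction L' with
    | nil => exact hmn.hsZero.congr (fun v => by simp) (by simp)
    | cons x L' ih =>
      refine (hmn.hsAdd (hzA x (hL' x List.mem_cons_self))
        (ih fun y hy => hL' y (List.mem_cons_of_mem _ hy))).congr (fun v => ?_) ?_
      · rw [List.map_cons, List.sum_cons, mul_add]
      · rw [List.map_cons, List.sum_cons]
  have h4 : zF = (L.map zA).sum := by
    refine hzF.unique (h3 L hL') fun v => ?_
    congr 1
    exact (list_phase F hfix t v).symm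
  rw [h4, list_fam (P := Irr) (fun x y hx hy hs => hcong x y hx hy hs) hS1 hS2 L
    hL' fun x hx => ?_]
  · exact Finset.sum_congr rfl fun p hp => by rw [hm p (hS1 p hp)]
  · by_contra hcon
    push Not at hcon
    have h3 := hS3 x (hL' x hx) hcon
    rw [← hm x (hL' x hx)] at h3
    exact mult_ne_zero hx h3

include hT hσ in
/-- **The spectrum over all number fields and all heights.** -/
theorem spec {𝒰 : Ultrafilter ℝ} (h𝒰 : (𝒰 : Filter ℝ) ≤ 𝓝[>] 0) :
    ∃ (zF : IntermediateField K (AlgebraicClosure K) → ℝ → ℝ) (zA : MRep (GK K) → ℝ → ℝ),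
      (∀ (F : IntermediateField K (AlgebraicClosure K)) [NumberField F] (t : ℝ),
        Hs (𝒰 : Filter ℝ) (ED K) (fun v => T v * (fixn K F (σ v) * cz t v)) (zF F t)) ∧
      (∀ x, IsArtin x.2 → ∀ t, Hs (𝒰 : Filter ℝ) (ED K) (fun v => T v * RR x.2 t σ v)
        (zA x t)) ∧
      (∀ S : Finset (MRep (GK K) × ℝ), Dist S → ∑ p ∈ S, (zA p.1 p.2) ^ 2 ≤ 1) ∧
      (∀ (F : IntermediateField K (AlgebraicClosure K)) [NumberField F],
        ∃ S : Finset (MRep (GK K)), (∀ p ∈ S, Irr p) ∧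
          (∀ p ∈ S, ∀ q ∈ S, p ≠ q → ¬ Sim p q) ∧
          (∀ x, Irr x → (∀ p ∈ S, ¬ Sim x p) → fixedDim x.2 F = 0) ∧
          ∀ t, zF F t = ∑ p ∈ S, zA p t * fixedDim p.2 F) ∧
      (∀ (c : ℕ) (η : ℝ), 0 < η → ∃ (M : IntermediateField K (AlgebraicClosure K))
        (H : Finset ℝ), FiniteDimensional K M ∧ IsGalois K M ∧
        ∀ (F : IntermediateField K (AlgebraicClosure K)) [NumberField F],
          Module.finrank K F ≤ c → ∀ t : ℝ,
            |zF F t - zF (F ⊓ M) t| < η ∧ (t ∉ H → |zF F t| < η)) := by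
  classical
  have hmn : Mn (𝒰 : Filter ℝ) (ED K) := mn_mono (mnD K) h𝒰
  have h1 : ∀ (F : IntermediateField K (AlgebraicClosure K)) (t : ℝ), ∃ z : ℝ,
      ∀ [NumberField F], Hs (𝒰 : Filter ℝ) (ED K)
        (fun v => T v * (fixn K F (σ v) * cz t v)) z := by
    intro F t
    by_cases hF : NumberField F
    · obtain ⟨m, hm⟩ := exists_hs hmn ((bd_T hT).mul ((bd_fixn (F := F) σ).mul
        (⟨1, fun v => abs_cz t v⟩ : Bd fun v => cz t v)))
      refine ⟨m, ?_⟩
      intro hF'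
      exact hm
    · refine ⟨0, ?_⟩
      intro hF'
      exact absurd hF' hF
  choose zF hzF using h1
  have h2 : ∀ (x : MRep (GK K)) (t : ℝ), ∃ z : ℝ, IsArtin x.2 →
      Hs (𝒰 : Filter ℝ) (ED K) (fun v => T v * RR x.2 t σ v) z := by
    intro x t
    by_cases hx : IsArtin x.2
    · obtain ⟨m, hm⟩ := exists_hs hmn ((bd_T hT).mul (bd_RRt hx t σ))
      exact ⟨m, fun _ => hm⟩
    · exact ⟨0, fun h => absurd h hx⟩
  choose zA hzA using h2
  have hB : ∀ S : Finset (MRep (GK K) × ℝ), Dist S → ∑ p ∈ S, (zA p.1 p.2) ^ 2 ≤ 1 :=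
    fun S hS => bessel_all hT hσ h𝒰 hS (y := fun p => zA p.1 p.2)
      fun p hp => hzA p.1 p.2 (hS.1 p hp).1
  have hform : ∀ (F : IntermediateField K (AlgebraicClosure K)) [NumberField F]
      (S : Finset (MRep (GK K))), (∀ p ∈ S, Irr p) → (∀ p ∈ S, ∀ q ∈ S, p ≠ q → ¬ Sim p q) →
      (∀ x, Irr x → (∀ p ∈ S, ¬ Sim x p) → fixedDim x.2 F = 0) →
      ∀ t, zF F t = ∑ p ∈ S, zA p t * fixedDim p.2 F := fun F _ S h3 h4 h5 t =>
    zF_formula hmn (fun x hx => hzA x t hx.1) F (hzF F t) h3 h4 h5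
  refine ⟨zF, zA, fun F _ t => hzF F t, fun x hx t => hzA x t hx, hB, fun F _ => ?_,
    fun c η hη => ?_⟩
  · obtain ⟨S, h3, h4, h5, -⟩ := exists_cover F
    exact ⟨S, h3, h4, h5, hform F S h3 h4 h5⟩
  -- one governing field
  set Q : Set ℝ := {q | ∃ S : Finset (MRep (GK K) × ℝ), Dist S ∧
    ∑ p ∈ S, (zA p.1 p.2) ^ 2 = q} with hQ
  have hQne : Q.Nonempty := ⟨0, ∅, ⟨fun p hp => absurd hp (Finset.notMem_empty _),
    fun p hp => absurd hp (Finset.notMem_empty _)⟩, Finset.sum_empty⟩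
  have hQb : BddAbove Q := by
    refine ⟨1, ?_⟩
    rintro q ⟨S, h3, rfl⟩
    exact hB S h3
  set θ : ℝ := η ^ 2 / (c + 1) with hθ
  have hθ0 : 0 < θ := by positivity
  obtain ⟨q₀, ⟨S₀, h3, rfl⟩, hq₀⟩ := exists_lt_of_lt_csSup hQne
    (show sSup Q - θ < sSup Q by linarith)
  obtain ⟨U, hUn, hU, hρ⟩ := exists_common (κ := S₀) (n := fun k => k.1.1.1)
    (fun k => k.1.1.2) fun k => (h3.1 k.1 k.2).1
  set M : IntermediateField K (AlgebraicClosure K) := IntermediateField.fixedField U with hM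
  have hMU : M.fixingSubgroup = U :=
    InfiniteGalois.fixingSubgroup_fixedField ⟨U, U.isClosed_of_isOpen hU⟩
  have hMf : FiniteDimensional K M ∧ IsGalois K M := by
    rw [← InfiniteGalois.isOpen_and_normal_iff_finite_and_isGalois, hMU]
    exact ⟨hU, hUn⟩
  refine ⟨M, S₀.image Prod.snd, hMf.1, hMf.2, fun F _ hdeg t => ?_⟩
  obtain ⟨S, hS1, hS2, hS3, hS4⟩ := exists_cover F
  have hfd : FiniteDimensional K M := hMf.1
  have hle : F ⊓ M ≤ M := inf_le_right
  have hfd' : FiniteDimensional K (F ⊓ M : IntermediateField K (AlgebraicClosure K)) :=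
    FiniteDimensional.of_injective (IntermediateField.inclusion hle).toLinearMap
      (IntermediateField.inclusion_injective hle)
  have hnf : NumberField (F ⊓ M : IntermediateField K (AlgebraicClosure K)) :=
    NumberField.of_module_finite K _
  have hS5 : ∀ x, Irr x → (∀ p ∈ S, ¬ Sim x p) →
      fixedDim x.2 (F ⊓ M : IntermediateField K (AlgebraicClosure K)) = 0 := by
    intro x hx hxS
    have h5 := hS3 x hx hxS
    have h6 := fixedDim_mono x.2 (inf_le_left : F ⊓ M ≤ F)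
    omega
  have hdegr : (Module.finrank K F : ℝ) ≤ c := by exact_mod_cast hdeg
  -- a sum over a part of `S` disjoint from `S₀`
  have key : ∀ B ⊆ S, (∀ p ∈ S₀, ∀ q ∈ B, p.2 = t → ¬ Sim p.1 q) →
      |∑ p ∈ B, zA p t * fixedDim p.2 F| < η := by
    intro B hBS hcross
    set B' : Finset (MRep (GK K) × ℝ) := B.image fun p => (p, t) with hB'
    have hinj : ∀ p ∈ B, ∀ q ∈ B, (p, t) = (q, t) → p = q := fun p _ q _ h =>
      (Prod.mk.inj h).1
    have hdisj : Disjoint S₀ B' := by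
      rw [Finset.disjoint_left]
      intro p hp hpB
      obtain ⟨q, hq, rfl⟩ := Finset.mem_image.1 hpB
      exact hcross _ hp q hq rfl (Sim.refl q)
    have hD : Dist (S₀ ∪ B') := by
      refine ⟨fun p hp => ?_, fun p hp q hq hpq ht => ?_⟩
      · rcases Finset.mem_union.1 hp with hp | hp
        · exact h3.1 p hp
        · obtain ⟨q, hq, rfl⟩ := Finset.mem_image.1 hp
          exact hS1 q (hBS hq)
      · rcases Finset.mem_union.1 hp with hp' | hp'
        · rcases Finset.mem_union.1 hq with hq' | hq'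
          · exact h3.2 p hp' q hq' hpq ht
          · obtain ⟨q0, hq0, rfl⟩ := Finset.mem_image.1 hq'
            exact hcross p hp' q0 hq0 ht
        · obtain ⟨p0, hp0, rfl⟩ := Finset.mem_image.1 hp'
          rcases Finset.mem_union.1 hq with hq' | hq'
          · exact fun hs => hcross q hq' p0 hp0 ht.symm hs.symm
          · obtain ⟨q0, hq0, rfl⟩ := Finset.mem_image.1 hq'
            exact hS2 p0 (hBS hp0) q0 (hBS hq0) fun h => hpq (by rw [h])
    have hsum : ∑ p ∈ S₀, (zA p.1 p.2) ^ 2 + ∑ p ∈ B, (zA p t) ^ 2 ≤ sSup Q := by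
      have e : ∑ p ∈ B, (zA p t) ^ 2 = ∑ p ∈ B', (zA p.1 p.2) ^ 2 := by
        rw [hB', Finset.sum_image hinj]
      rw [e, ← Finset.sum_union hdisj]
      exact le_csSup hQb ⟨S₀ ∪ B', hD, rfl⟩
    have hBθ : ∑ p ∈ B, (zA p t) ^ 2 ≤ θ := by linarith
    have hm : ∑ p ∈ B, (fixedDim p.2 F : ℝ) ^ 2 ≤ c := by
      have h5 : ∑ p ∈ B, (fixedDim p.2 F : ℝ) ^ 2 ≤ ∑ p ∈ S, (fixedDim p.2 F : ℝ) ^ 2 :=
        Finset.sum_le_sum_of_subset_of_nonneg hBS fun _ _ _ => sq_nonneg _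
      exact (h5.trans hS4).trans hdegr
    refine abs_lt_of_sq_lt_sq ?_ hη.le
    have h5 := Finset.sum_mul_sq_le_sq_mul_sq B (fun p => zA p t) fun p => (fixedDim p.2 F : ℝ)
    have h6 : (∑ p ∈ B, (zA p t) ^ 2) * ∑ p ∈ B, (fixedDim p.2 F : ℝ) ^ 2 ≤ θ * c :=
      mul_le_mul hBθ hm (Finset.sum_nonneg fun _ _ => sq_nonneg _) hθ0.le
    have h7 : θ * c < η ^ 2 := by
      rw [hθ, div_mul_eq_mul_div, div_lt_iff₀ (by positivity)]
      have : 0 < η ^ 2 := by positivity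
      nlinarith
    linarith
  constructor
  · set B : Finset (MRep (GK K)) := S.filter fun p => ¬ ∀ u ∈ U, p.2 u = 1 with hBd
    have hdiff : zF F t - zF (F ⊓ M) t = ∑ p ∈ B, zA p t * fixedDim p.2 F := by
      rw [hform F S hS1 hS2 hS3, hform (F ⊓ M) S hS1 hS2 hS5, ← Finset.sum_sub_distrib, hBd,
        Finset.sum_filter]
      refine Finset.sum_congr rfl fun p hp => ?_
      by_cases hpU : ∀ u ∈ U, p.2 u = 1
      · rw [if_neg (not_not.2 hpU), fixed_inf hU hMU F p hpU, sub_self]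
      · rw [if_pos hpU]
        have h5 := fixed_zero hMU p (hS1 p hp).2 hpU
        have h6 := fixedDim_mono p.2 (inf_le_right : F ⊓ M ≤ M)
        have h7 : fixedDim p.2 (F ⊓ M : IntermediateField K (AlgebraicClosure K)) = 0 := by omega
        rw [h7, Nat.cast_zero, mul_zero, sub_zero]
    rw [hdiff]
    exact key B (Finset.filter_subset _ _) fun p hp q hq _ hs =>
      (Finset.mem_filter.1 hq).2 fun u hu => Sim_one hs (hρ ⟨p, hp⟩ u hu)
  · intro ht
    rw [hform F S hS1 hS2 hS3]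
    exact key S (Finset.Subset.refl _) fun p hp q hq hpt hs =>
      ht (Finset.mem_image.2 ⟨p, hp, hpt⟩)

end

end Pool.Agent.T2H36.AT
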