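import Pool.Agent.T2H36.AT.Gram

/-! Strict inequalities for the sizes of the twists by representations of dimension at least three. -/

set_option autoImplicit false

namespace Pool.Agent.T2H36.AT

open Complex Filter Topology ComplexConjugate NumberField IsDedekindDomain
  Pool.Agent.W401.Cheb Pool.Agent.W540.BE Pool.Agent.W353.L1 Pool.Agent.R433.AT
open Pool.Agent.H341R2 (lam lam_tendsto)
open Pool.Agent.Y722.EP (log_ratio)

section
variable {F : Type} [Field F] [NumberField F]
  (U : Subgroup (GK F)) [U.Normal] [Finite (GK F ⧸ U)] {κ : Type*} [Fintype κ] {n : κ → ℕ}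
    (ρ : ∀ k, Representation ℂ (GK F) (Fin (n k) → ℂ)) (hρ : ∀ k, ∀ u ∈ U, ρ k u = 1)
  {ι : Type*} [Fintype ι] {R : ι → HeightOneSpectrum (𝓞 F) → ℝ}
  (hR : MeanOne R) (hU : IsOpen (U : Set (GK F))) (τ : κ → ℝ)
    (σ : HeightOneSpectrum (𝓞 F) → GK F) (hσ : ∀ v, IsFrob v (σ v))
    {x : ι → κ → ℝ → ℝ}
    (hx : ∀ i k, Tendsto (fun ε : ℝ => (EP (nm F) ε fun v => R i v * RR (ρ k) (τ k) σ v) / lam ε -
      x i k ε) (𝓝[>] 0) (𝓝 0))

include hρ hR hU hσ hx in
/-- heights different from zero -/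
theorem sq_le_half {i : ι} {k : κ} (hk : (ρ k).IsIrreducible) (ht : τ k ≠ 0) {η : ℝ}
    (hη : 0 < η) : ∀ᶠ ε : ℝ in 𝓝[>] 0, x i k ε ^ 2 ≤ 1 / 2 + η := by
  classical
  have hg : gr U ρ hρ τ k k = 1 / 2 := by
    unfold gr
    rw [if_pos rfl, if_neg (fun h : τ k = -τ k => ht (by linarith)),
      avC_ortho U ρ hρ hk hk, if_pos ⟨Representation.Equiv.refl _⟩, Complex.one_re]
    norm_num
  filter_upwards [matrix_ineq U ρ hρ hR hU τ σ hσ hx (C := 1) (η := η) hη] with ε h
  have h1 := h (Pi.single i 1) (Pi.single k 1) (fun j => by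
    by_cases hj : j = i
    · subst hj; simp
    · simp [hj]) (fun j => by
    by_cases hj : j = k
    · subst hj; simp
    · simp [hj])
  have h2 : x i k ε ^ 2 ≤ gr U ρ hρ τ k k + η := by
    simpa [Pi.single_apply] using h1
  rwa [hg] at h2

include hρ hR hU hσ hx in
/-- **Dimension at least three.** -/
theorem abs_le_strict {i : ι} {k : κ} (hk : (ρ k).IsIrreducible) (ht : τ k = 0)
    (hn : 2 ≤ n k) {η : ℝ} (hη : 0 < η) : ∀ᶠ ε : ℝ in 𝓝[>] 0,
      |x i k ε| ≤ 1 - ((n k : ℝ) - 2) ^ 2 / (2 * Nat.card (GK F ⧸ U)) + η := by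
  classical
  have hN : NormSys (nm F) := normSys
  obtain ⟨C, hC⟩ := hR.2 1
  have hn3 : (2 : ℝ) ≤ n k := by exact_mod_cast hn
  -- the primes in the kernel
  set g : GK F ⧸ U → ℂ := fun q => if q = 1 then 1 else 0 with hg
  have hgc : ∀ a y, g (y * a * y⁻¹) = g a := by
    intro a y
    rw [hg]
    simp only
    have : y * a * y⁻¹ = 1 ↔ a = 1 := by
      constructor
      · intro h1
        have h2 : y * a = y := by
          have := mul_inv_eq_one.1 h1
          exact this
        exact mul_eq_left.1 h2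
      · intro h1
        rw [h1]
        group
    simp only [this]
  have hgav : avC U g = (((Nat.card (GK F ⧸ U) : ℝ)⁻¹ : ℝ) : ℂ) := by
    let _ : Fintype (GK F ⧸ U) := Fintype.ofFinite _
    unfold avC
    rw [finsum_eq_sum_of_fintype, hg]
    simp
  have hsplit := cheb_edge U hU g hgc _ hgav σ hσ 0
  rw [if_pos rfl] at hsplit
  have hI : Tendsto (fun ε : ℝ => (EP (nm F) ε fun v => if σ v ∈ U then (1 : ℝ) else 0) / lam ε)
      (𝓝[>] 0) (𝓝 ((Nat.card (GK F ⧸ U) : ℝ)⁻¹)) := by
    refine hsplit.congr fun ε => ?_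
    congr 2
    funext v
    have h1 : ((nm F v : ℕ) : ℂ) ^ (-(((0 : ℝ) : ℂ) * I)) = 1 := by simp
    rw [h1, mul_one, hg]
    simp only
    by_cases h2 : σ v ∈ U
    · rw [if_pos ((QuotientGroup.eq_one_iff _).2 h2), if_pos h2, Complex.one_re]
    · rw [if_neg (fun h3 => h2 ((QuotientGroup.eq_one_iff _).1 h3)), if_neg h2, Complex.zero_re]
  have hG := gr_lim U ρ hρ hU τ σ hσ k k
  have hg1 := gr_self_le U ρ hρ τ hk
  have hpos : (0 : ℝ) < Nat.card (GK F ⧸ U) := by exact_mod_cast Nat.card_pos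
  set c0 : ℝ := ((n k : ℝ) - 2) ^ 2 with hc0
  -- one sign
  have key : ∀ s : ℝ, s ^ 2 = 1 → ∀ᶠ ε : ℝ in 𝓝[>] 0,
      -s * x i k ε ≤ 1 - c0 / (2 * Nat.card (GK F ⧸ U)) + η := by
    intro s hs
    have hL : Tendsto (fun ε : ℝ => Real.log (1 / ε) / lam ε + |C| / lam ε +
        (2 * s) * ((EP (nm F) ε fun v => R i v * RR (ρ k) (τ k) σ v) / lam ε - x i k ε) +
        (EP (nm F) ε fun v => RR (ρ k) (τ k) σ v * RR (ρ k) (τ k) σ v) / lam ε -
        c0 * ((EP (nm F) ε fun v => if σ v ∈ U then (1 : ℝ) else 0) / lam ε)) (𝓝[>] 0)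
        (𝓝 (1 + 0 + (2 * s) * 0 + gr U ρ hρ τ k k - c0 * (Nat.card (GK F ⧸ U) : ℝ)⁻¹)) :=
      (((log_ratio.add (tendsto_const_nhds.div_atTop lam_tendsto)).add
        ((hx i k).const_mul _)).add hG).sub (hI.const_mul _)
    have hlt : 1 + 0 + (2 * s) * 0 + gr U ρ hρ τ k k - c0 * (Nat.card (GK F ⧸ U) : ℝ)⁻¹ <
        2 * (1 - c0 / (2 * Nat.card (GK F ⧸ U)) + η) := by
      have e1 : 2 * (1 - c0 / (2 * Nat.card (GK F ⧸ U)) + η) =
          2 - c0 * (Nat.card (GK F ⧸ U) : ℝ)⁻¹ + 2 * η := by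
        field_simp
      rw [e1]
      linarith
    filter_upwards [hC, lam_tendsto.eventually_gt_atTop 0, self_mem_nhdsWithin,
      hL.eventually (gt_mem_nhds hlt)] with ε h1 h2 h3 h0
    have hε : (0 : ℝ) < ε := h3
    have h4 := h1 (Pi.single i 1) (fun j => by
      by_cases hj : j = i
      · subst hj; simp
      · simp [hj])
    have e1 : ∀ v, ∑ j, (Pi.single i 1 : ι → ℝ) j * R j v = R i v := by
      intro v
      rw [Finset.sum_eq_single i (fun j _ hj => by simp [hj])
        (fun h => absurd (Finset.mem_univ _) h)]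
      simp
    have e2 : ∑ j, ((Pi.single i 1 : ι → ℝ) j) ^ 2 = 1 := by
      rw [Finset.sum_eq_single i (fun j _ hj => by simp [hj])
        (fun h => absurd (Finset.mem_univ _) h)]
      simp
    simp only [e1, e2, one_mul] at h4
    have hRb := hR.1 i
    have hn' : ∀ v, |RR (ρ k) (τ k) σ v| ≤ n k := fun v => abs_RR_le U (ρ k) (hρ k) _ _ _
    have hab : |s| = 1 := by
      rw [← sq_abs] at hs
      nlinarith [abs_nonneg s]
    have hpt : ∀ v, (c0 * if σ v ∈ U then (1 : ℝ) else 0) ≤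
        R i v ^ 2 + ((2 * s) * (R i v * RR (ρ k) (τ k) σ v) +
          RR (ρ k) (τ k) σ v * RR (ρ k) (τ k) σ v) := by
      intro v
      have e3 : R i v ^ 2 + ((2 * s) * (R i v * RR (ρ k) (τ k) σ v) +
          RR (ρ k) (τ k) σ v * RR (ρ k) (τ k) σ v) = (R i v + s * RR (ρ k) (τ k) σ v) ^ 2 := by
        have : (R i v + s * RR (ρ k) (τ k) σ v) ^ 2 = R i v ^ 2 +
          ((2 * s) * (R i v * RR (ρ k) (τ k) σ v) +
            s ^ 2 * (RR (ρ k) (τ k) σ v * RR (ρ k) (τ k) σ v)) := by ring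
        rw [this, hs, one_mul]
      rw [e3]
      split_ifs with h5
      · have h6 : RR (ρ k) (τ k) σ v = n k := by
          unfold RR
          rw [ht]
          have h7 : (ρ k).character (σ v)⁻¹ = n k := by
            unfold Representation.character
            rw [hρ k _ (U.inv_mem h5), LinearMap.trace_one, Module.finrank_fin_fun]
          have h8 : zz 0 v = 1 := by
            unfold zz
            simp
          rw [h7, h8, mul_one, Complex.natCast_re]
        have h9 : (n k : ℝ) - 2 ≤ |R i v + s * RR (ρ k) (τ k) σ v| := by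
          have h10 : |s * RR (ρ k) (τ k) σ v| = n k := by
            rw [abs_mul, hab, one_mul, h6, abs_of_nonneg (Nat.cast_nonneg _)]
          have h11 : |s * RR (ρ k) (τ k) σ v| ≤
              |R i v + s * RR (ρ k) (τ k) σ v| + |R i v| := by
            have : s * RR (ρ k) (τ k) σ v =
                (R i v + s * RR (ρ k) (τ k) σ v) - R i v := by ring
            calc |s * RR (ρ k) (τ k) σ v| =
                |(R i v + s * RR (ρ k) (τ k) σ v) - R i v| := by rw [← this]
              _ ≤ _ := abs_sub _ _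
          have h12 := hRb v
          linarith
        rw [mul_one, hc0, ← sq_abs (R i v + s * RR (ρ k) (τ k) σ v)]
        exact pow_le_pow_left₀ (by linarith) h9 2
      · rw [mul_zero]
        exact sq_nonneg _
    have b1 : ∀ v, |R i v ^ 2| ≤ 4 := fun v => by
      rw [abs_pow]
      calc |R i v| ^ 2 ≤ 2 ^ 2 := pow_le_pow_left₀ (abs_nonneg _) (hRb v) 2
        _ = 4 := by norm_num
    have b2 : ∀ v, |(2 * s) * (R i v * RR (ρ k) (τ k) σ v)| ≤ 2 * (2 * n k) := fun v => by
      rw [abs_mul, abs_mul, abs_mul, hab]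
      have := mul_le_mul (hRb v) (hn' v) (abs_nonneg _) (by norm_num : (0 : ℝ) ≤ 2)
      have h2 : |(2 : ℝ)| = 2 := abs_of_pos (by norm_num)
      rw [h2]
      linarith
    have b3 : ∀ v, |RR (ρ k) (τ k) σ v * RR (ρ k) (τ k) σ v| ≤ (n k : ℝ) * n k := fun v => by
      rw [abs_mul]
      exact mul_le_mul (hn' v) (hn' v) (abs_nonneg _) (Nat.cast_nonneg _)
    have h5 := EP_mono (B := c0) (B' := 4 + (2 * (2 * (n k : ℝ)) + (n k : ℝ) * n k))
      (φ := fun v => c0 * if σ v ∈ U then (1 : ℝ) else 0)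
      (ψ := fun v => R i v ^ 2 + ((2 * s) * (R i v * RR (ρ k) (τ k) σ v) +
          RR (ρ k) (τ k) σ v * RR (ρ k) (τ k) σ v)) (fun v => by
          have hc00 : 0 ≤ c0 := sq_nonneg _
          split_ifs
          · rw [mul_one, abs_of_nonneg hc00]
          · rw [mul_zero, abs_zero]; exact hc00)
      (fun v => (abs_add_le _ _).trans (add_le_add (b1 v)
        ((abs_add_le _ _).trans (add_le_add (b2 v) (b3 v))))) hpt hε
    rw [EP_add hN hε b1 (fun v => (abs_add_le _ _).trans (add_le_add (b2 v) (b3 v))),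
      EP_add hN hε b2 b3, EP_const_mul, EP_const_mul] at h5
    have h6 : (EP (nm F) ε fun v => R i v ^ 2) ≤ Real.log (1 / ε) + |C| := by
      have := le_abs_self C
      linarith
    set X := EP (nm F) ε fun v => R i v * RR (ρ k) (τ k) σ v with hX
    set G := EP (nm F) ε fun v => RR (ρ k) (τ k) σ v * RR (ρ k) (τ k) σ v with hGd
    set A := EP (nm F) ε fun v => if σ v ∈ U then (1 : ℝ) else 0 with hA
    have h7 : c0 * (A / lam ε) ≤ Real.log (1 / ε) / lam ε + |C| / lam ε + (2 * s) * (X / lam ε) +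
        G / lam ε := by
      have h8 : c0 * A ≤ Real.log (1 / ε) + |C| + (2 * s) * X + G := by linarith
      have h9 := div_le_div_of_nonneg_right h8 h2.le
      have e5 : (Real.log (1 / ε) + |C| + (2 * s) * X + G) / lam ε =
          Real.log (1 / ε) / lam ε + |C| / lam ε + (2 * s) * (X / lam ε) + G / lam ε := by ring
      rw [e5] at h9
      have e6 : c0 * (A / lam ε) = c0 * A / lam ε := by ring
      rw [e6]
      exact h9
    have e7 : (2 * s) * (X / lam ε - x i k ε) = (2 * s) * (X / lam ε) - 2 * (s * x i k ε) := by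
      ring
    rw [e7] at h0
    linarith
  filter_upwards [key 1 (by norm_num), key (-1) (by norm_num)] with ε h1 h2
  rw [abs_le]
  constructor <;> linarith

end

end Pool.Agent.T2H36.AT
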